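import Mathlib

/-!
# NORM, abstract part: base change of a finite field extension with a primitive element
-/

set_option autoImplicit false
set_option linter.unusedSectionVars false
set_option linter.style.haveILetI false

namespace Pool.Agent.Helper22.FF

open Polynomial

section

variable {F0 k R L : Type} [Field F0] [Field k] [Field R] [Field L] [Algebra F0 k] [Algebra R L]

/-- the hypotheses: `L = R(κ θ)`, `k = F0(θ)`, same degree -/
structure NormH (μ : F0 →+* R) (κ : k →+* L) (θ : k) : Prop where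
  com : ∀ c, κ (algebraMap F0 k c) = algebraMap R L (μ c)
  gen : IntermediateField.adjoin F0 {θ} = ⊤
  gen' : IntermediateField.adjoin R {κ θ} = ⊤
  deg : Module.finrank F0 k ≤ (minpoly R (κ θ)).natDegree

variable {μ : F0 →+* R} {κ : k →+* L} {θ : k}

theorem normH_comp (h : NormH μ κ θ) : κ.comp (algebraMap F0 k) = (algebraMap R L).comp μ :=
  RingHom.ext h.com

variable [FiniteDimensional F0 k]

theorem normH_root (h : NormH μ κ θ) : aeval (κ θ) ((minpoly F0 θ).map μ) = 0 := by
  rw [aeval_def, eval₂_map, ← normH_comp h, ← hom_eval₂]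
  have : eval₂ (algebraMap F0 k) θ (minpoly F0 θ) = 0 := minpoly.aeval F0 θ
  rw [this, map_zero]

theorem normH_monic : ((minpoly F0 θ).map μ).Monic :=
  (minpoly.monic (IsIntegral.of_finite F0 θ)).map μ

theorem normH_int (h : NormH μ κ θ) : IsIntegral R (κ θ) :=
  ⟨_, normH_monic (F0 := F0) (θ := θ) (μ := μ), by rw [← aeval_def]; exact normH_root h⟩

theorem normH_deg0 (h : NormH μ κ θ) : (minpoly F0 θ).natDegree = Module.finrank F0 k :=
  (Field.primitive_element_iff_minpoly_natDegree_eq F0 θ).1 h.gen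

theorem normH_minpoly (h : NormH μ κ θ) : minpoly R (κ θ) = (minpoly F0 θ).map μ := by
  symm
  apply eq_of_monic_of_dvd_of_natDegree_le (minpoly.monic (normH_int h)) normH_monic
    (minpoly.dvd R _ (normH_root h))
  rw [natDegree_map, normH_deg0 h]
  exact h.deg

theorem normH_fin (h : NormH μ κ θ) : FiniteDimensional R L := by
  have h1 : FiniteDimensional R (IntermediateField.adjoin R {κ θ}) :=
    IntermediateField.adjoin.finiteDimensional (normH_int h)
  rw [h.gen'] at h1
  exact IntermediateField.topEquiv.toLinearEquiv.finiteDimensional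

theorem normH_finrank (h : NormH μ κ θ) : Module.finrank R L = Module.finrank F0 k := by
  have h1 := IntermediateField.adjoin.finrank (normH_int h)
  rw [h.gen', IntermediateField.finrank_top', normH_minpoly h, natDegree_map, normH_deg0 h] at h1
  exact h1

theorem normH_span (h : NormH μ κ θ) {n : ℕ} (b : Module.Basis (Fin n) F0 k) :
    ⊤ ≤ Submodule.span R (Set.range fun i => κ (b i)) := by
  have hk : ∀ y : k, κ y ∈ Submodule.span R (Set.range fun i => κ (b i)) := by
    intro y
    rw [← b.sum_repr y, map_sum]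
    refine Submodule.sum_mem _ fun i _ => ?_
    rw [Algebra.smul_def, map_mul, h.com, ← Algebra.smul_def]
    exact Submodule.smul_mem _ _ (Submodule.subset_span ⟨i, rfl⟩)
  intro x _
  have hx : x ∈ IntermediateField.adjoin R {κ θ} := by rw [h.gen']; trivial
  have hx2 : x ∈ Algebra.adjoin R {κ θ} := by
    rw [← IntermediateField.adjoin_simple_toSubalgebra_of_isAlgebraic (normH_int h).isAlgebraic]
    exact hx
  rw [Algebra.adjoin_singleton_eq_range_aeval] at hx2
  obtain ⟨P, rfl⟩ := hx2
  show aeval (κ θ) P ∈ _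
  rw [aeval_eq_sum_range]
  refine Submodule.sum_mem _ fun i _ => Submodule.smul_mem _ _ ?_
  rw [← map_pow]
  exact hk _

theorem normH_basis (h : NormH μ κ θ) : ∃ (b : Module.Basis (Fin (Module.finrank F0 k)) F0 k)
    (b' : Module.Basis (Fin (Module.finrank F0 k)) R L), ∀ i, b' i = κ (b i) := by
  have b := Module.finBasis F0 k
  refine ⟨b, basisOfTopLeSpanOfCardEqFinrank (fun i => κ (b i)) (normH_span h b) ?_, fun i => ?_⟩
  · rw [Fintype.card_fin, normH_finrank h]
  · rw [coe_basisOfTopLeSpanOfCardEqFinrank]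

theorem normH_repr (h : NormH μ κ θ) {n : ℕ} (b : Module.Basis (Fin n) F0 k)
    (b' : Module.Basis (Fin n) R L) (hb : ∀ i, b' i = κ (b i)) (y : k) (i : Fin n) :
    b'.repr (κ y) i = μ (b.repr y i) := by
  have h1 : κ y = ∑ i, μ (b.repr y i) • b' i := by
    conv_lhs => rw [← b.sum_repr y]
    rw [map_sum]
    refine Finset.sum_congr rfl fun i _ => ?_
    rw [Algebra.smul_def, map_mul, h.com, ← Algebra.smul_def, hb i]
  rw [h1, b'.repr_sum_self]

theorem normH_mat (h : NormH μ κ θ) {n : ℕ} (b : Module.Basis (Fin n) F0 k)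
    (b' : Module.Basis (Fin n) R L) (hb : ∀ i, b' i = κ (b i)) (x : k) :
    Algebra.leftMulMatrix b' (κ x) = μ.mapMatrix (Algebra.leftMulMatrix b x) := by
  ext i j
  rw [Algebra.leftMulMatrix_eq_repr_mul, hb j, ← map_mul, normH_repr h b b' hb]
  rw [RingHom.mapMatrix_apply, Matrix.map_apply, Algebra.leftMulMatrix_eq_repr_mul]

theorem normH_norm (h : NormH μ κ θ) (x : k) : Algebra.norm R (κ x) = μ (Algebra.norm F0 x) := by
  obtain ⟨b, b', hb⟩ := normH_basis h
  rw [Algebra.norm_eq_matrix_det b', Algebra.norm_eq_matrix_det b, normH_mat h b b' hb,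
    RingHom.map_det]

/-- elements of `L` whose multiplication matrix has entries in the subfield `Fo` of `R` form a
subfield; their norms are in `Fo` -/
theorem normH_sub (h : NormH μ κ θ) (Fo : Subfield R) (hFo : ∀ c, μ c ∈ Fo) :
    ∃ V : Subfield L, (∀ x : k, κ x ∈ V) ∧ (∀ c ∈ Fo, algebraMap R L c ∈ V) ∧
      ∀ x ∈ V, Algebra.norm R x ∈ Fo := by
  obtain ⟨b, b', hb⟩ := normH_basis h
  let Mm := fun x : L => Algebra.leftMulMatrix b' x
  let V : Subfield L :=
    { carrier := {x | ∃ M : Matrix (Fin (Module.finrank F0 k)) (Fin (Module.finrank F0 k)) Fo,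
        Algebra.leftMulMatrix b' x = Fo.subtype.mapMatrix M}
      mul_mem' := by
        rintro x y ⟨M, hM⟩ ⟨M', hM'⟩
        exact ⟨M * M', by rw [map_mul, map_mul, hM, hM']⟩
      one_mem' := ⟨1, by rw [map_one, map_one]⟩
      add_mem' := by
        rintro x y ⟨M, hM⟩ ⟨M', hM'⟩
        exact ⟨M + M', by rw [map_add, map_add, hM, hM']⟩
      zero_mem' := ⟨0, by rw [map_zero, map_zero]⟩
      neg_mem' := by
        rintro x ⟨M, hM⟩
        exact ⟨-M, by rw [map_neg, map_neg, hM]⟩
      inv_mem' := by
        rintro x ⟨M, hM⟩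
        by_cases hx : x = 0
        · refine ⟨0, ?_⟩
          rw [hx, inv_zero, map_zero, map_zero]
        · have hdet : M.det ≠ 0 := by
            intro h0
            have h1 : Algebra.norm R x = 0 := by
              rw [Algebra.norm_eq_matrix_det b', hM, ← RingHom.map_det, h0, map_zero]
            haveI := normH_fin h
            exact hx (Algebra.norm_eq_zero_iff.1 h1)
          refine ⟨M⁻¹, ?_⟩
          have h2 : Algebra.leftMulMatrix b' x⁻¹ * Fo.subtype.mapMatrix M = 1 := by
            rw [← hM, ← map_mul, inv_mul_cancel₀ hx, map_one]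
          have h3 : Fo.subtype.mapMatrix M * Fo.subtype.mapMatrix M⁻¹ = 1 := by
            rw [← map_mul, Matrix.mul_nonsing_inv M (isUnit_iff_ne_zero.2 hdet), map_one]
          calc Algebra.leftMulMatrix b' x⁻¹
              = Algebra.leftMulMatrix b' x⁻¹ * (Fo.subtype.mapMatrix M * Fo.subtype.mapMatrix M⁻¹) := by
                rw [h3, mul_one]
            _ = Fo.subtype.mapMatrix M⁻¹ := by rw [← mul_assoc, h2, one_mul] }
  refine ⟨V, ?_, ?_, ?_⟩
  · intro x
    refine ⟨(Algebra.leftMulMatrix b x).map fun c => (⟨μ c, hFo c⟩ : Fo), ?_⟩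
    rw [normH_mat h b b' hb]
    ext i j
    rfl
  · intro c hc
    refine ⟨Matrix.scalar _ (⟨c, hc⟩ : Fo), ?_⟩
    rw [AlgHom.commutes]
    ext i j
    rw [RingHom.mapMatrix_apply, Matrix.map_apply, Matrix.scalar_apply, Matrix.diagonal_apply,
      Matrix.algebraMap_matrix_apply]
    split_ifs <;> rfl
  · rintro x ⟨M, hM⟩
    rw [Algebra.norm_eq_matrix_det b', hM, ← RingHom.map_det]
    exact (M.det).2

/-- two ring homomorphisms of `k` agree if they agree on `F0` and at `θ` -/
theorem normH_ext {K' : Type} [Field K'] (hgen : IntermediateField.adjoin F0 {θ} = ⊤) (σ σ' : k →+* K')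
    (h1 : σ.comp (algebraMap F0 k) = σ'.comp (algebraMap F0 k)) (h2 : σ θ = σ' θ) : σ = σ' := by
  have key : ∀ x ∈ IntermediateField.adjoin F0 {θ}, σ x = σ' x := by
    intro x hx
    refine IntermediateField.adjoin_induction F0 (p := fun x _ => σ x = σ' x) ?_ ?_ ?_ ?_ ?_ hx
    · intro y hy
      rw [Set.mem_singleton_iff] at hy
      rw [hy]
      exact h2
    · intro y
      exact RingHom.congr_fun h1 y
    · intro y z _ _ hy hz
      rw [map_add, map_add, hy, hz]
    · intro y _ hy
      rw [map_inv₀, map_inv₀, hy]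
    · intro y z _ _ hy hz
      rw [map_mul, map_mul, hy, hz]
  ext x
  exact key x (by rw [hgen]; trivial)

/-- embeddings of `L` over an embedding `e` of `R` -/
theorem normH_emb (h : NormH μ κ θ) [CharZero R] {K' : Type} [Field K'] [IsAlgClosed K']
    (e : R →+* K') :
    ∃ T : Finset (L →+* K'), (∀ σ, σ ∈ T ↔ σ.comp (algebraMap R L) = e) ∧
      T.card = Module.finrank F0 k ∧ (∀ x, e (Algebra.norm R x) = ∏ σ ∈ T, σ x) ∧
      (∀ σ : k →+* K', σ.comp (algebraMap F0 k) = e.comp μ → ∃ σ' ∈ T, σ'.comp κ = σ) ∧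
      ∀ σ ∈ T, ∀ σ' ∈ T, σ.comp κ = σ'.comp κ → σ = σ' := by
  classical
  letI : Algebra R K' := e.toAlgebra
  haveI := normH_fin h
  have hinj : Function.Injective (fun f : L →ₐ[R] K' => (f : L →+* K')) := by
    intro f g hfg
    exact AlgHom.coe_ringHom_injective hfg
  refine ⟨Finset.univ.map ⟨fun f : L →ₐ[R] K' => (f : L →+* K'), hinj⟩, ?_, ?_, ?_, ?_, ?_⟩
  · intro σ
    rw [Finset.mem_map]
    constructor
    · rintro ⟨f, _, rfl⟩
      ext c
      exact f.commutes c
    · intro hσ
      exact ⟨{ σ with commutes' := fun c => RingHom.congr_fun hσ c }, Finset.mem_univ _, rfl⟩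
  · rw [Finset.card_map, Finset.card_univ, AlgHom.card, normH_finrank h]
  · intro x
    rw [Finset.prod_map]
    exact Algebra.norm_eq_prod_embeddings R K' x
  · intro σ hσ
    have hroot : aeval (σ θ) (minpoly R (κ θ)) = 0 := by
      rw [normH_minpoly h, aeval_def, eval₂_map]
      have h1 : (algebraMap R K').comp μ = σ.comp (algebraMap F0 k) := hσ.symm
      rw [h1, ← hom_eval₂]
      have : eval₂ (algebraMap F0 k) θ (minpoly F0 θ) = 0 := minpoly.aeval F0 θ
      rw [this, map_zero]
    have hint := normH_int h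
    let f0 : IntermediateField.adjoin R {κ θ} →ₐ[R] K' :=
      (IntermediateField.adjoin.powerBasis hint).lift (σ θ) (by
        rw [IntermediateField.adjoin.powerBasis_gen, IntermediateField.minpoly_gen]
        exact hroot)
    have hf0 : f0 (IntermediateField.AdjoinSimple.gen R (κ θ)) = σ θ := by
      have := (IntermediateField.adjoin.powerBasis hint).lift_gen (σ θ) (by
        rw [IntermediateField.adjoin.powerBasis_gen, IntermediateField.minpoly_gen]
        exact hroot)
      exact this
    let g : L →ₐ[R] IntermediateField.adjoin R {κ θ} :=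
      ((IntermediateField.equivOfEq h.gen').trans IntermediateField.topEquiv).symm.toAlgHom
    have hg : g (κ θ) = IntermediateField.AdjoinSimple.gen R (κ θ) := by
      apply Subtype.ext
      rfl
    refine ⟨((f0.comp g : L →ₐ[R] K') : L →+* K'), ?_, ?_⟩
    · rw [Finset.mem_map]
      exact ⟨_, Finset.mem_univ _, rfl⟩
    · apply normH_ext h.gen
      · rw [RingHom.comp_assoc, normH_comp h, hσ, ← RingHom.comp_assoc]
        congr 1
        ext c
        exact (f0.comp g).commutes c
      · show f0 (g (κ θ)) = σ θ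
        rw [hg, hf0]
  · intro σ hσ σ' hσ' hk
    rw [Finset.mem_map] at hσ hσ'
    obtain ⟨f, _, rfl⟩ := hσ
    obtain ⟨f', _, rfl⟩ := hσ'
    apply normH_ext h.gen'
    · ext c
      exact (f.commutes c).trans (f'.commutes c).symm
    · exact RingHom.congr_fun hk θ

end

end Pool.Agent.Helper22.FF
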