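import Pool.Agent.Helper22.FF.Abs
import Pool.Agent.Helper59.FFI.NormA

/-!
# NORM: the norm of `k F̄` over `F̄(u) = A(u)`
-/

set_option autoImplicit false
set_option linter.unusedSectionVars false
set_option linter.style.haveILetI false

namespace Pool.Agent.Helper22.FF

open Pool.Agent.Helper14.BSC Polynomial Pool.Agent.Helper60.FF Pool.Agent.Helper18.FF3

/-! ### ring homomorphisms of rational functions -/

theorem norm_ratExt {K M : Type} [Field K] [Field M] (f g : RatFunc K →+* M)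
    (h1 : ∀ a : K, f (RatFunc.C a) = g (RatFunc.C a)) (h2 : f RatFunc.X = g RatFunc.X) : f = g := by
  apply IsLocalization.ringHom_ext (nonZeroDivisors K[X])
  apply Polynomial.ringHom_ext
  · intro a
    show f (algebraMap K[X] (RatFunc K) (C a)) = g (algebraMap K[X] (RatFunc K) (C a))
    rw [RatFunc.algebraMap_C]
    exact h1 a
  · show f (algebraMap K[X] (RatFunc K) X) = g (algebraMap K[X] (RatFunc K) X)
    rw [RatFunc.algebraMap_X]
    exact h2

theorem norm_mp_alg {K M : Type} [Field K] [Field M] (ι : K →+* M) (P : K[X]) :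
    mp ι (algebraMap K[X] (RatFunc K) P) = algebraMap M[X] (RatFunc M) (P.map ι) := by
  have h := RatFunc.map_apply_div (Polynomial.mapRingHom ι)
    (nonZeroDivisors_le_comap_nonZeroDivisors_of_injective _ (Polynomial.map_injective ι ι.injective)) P 1
  simp only [map_one, div_one] at h
  exact h

theorem norm_mp_C {K M : Type} [Field K] [Field M] (ι : K →+* M) (a : K) :
    mp ι (RatFunc.C a) = RatFunc.C (ι a) := by
  rw [← RatFunc.algebraMap_C, norm_mp_alg, Polynomial.map_C, RatFunc.algebraMap_C]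

theorem norm_mp_X {K M : Type} [Field K] [Field M] (ι : K →+* M) :
    mp ι (RatFunc.X : RatFunc K) = RatFunc.X := by
  rw [← RatFunc.algebraMap_X, norm_mp_alg, Polynomial.map_X, RatFunc.algebraMap_X]

/-- the embedding of `RatFunc A` given by an injective map of polynomials -/
noncomputable def normLift {K M : Type} [Field K] [Field M] (j0 : K[X] →+* M)
    (h : Function.Injective j0) : RatFunc K →+* M :=
  RatFunc.liftRingHom j0 (nonZeroDivisors_le_comap_nonZeroDivisors_of_injective _ h)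

theorem normLift_alg {K M : Type} [Field K] [Field M] (j0 : K[X] →+* M)
    (h : Function.Injective j0) (P : K[X]) : normLift j0 h (algebraMap K[X] (RatFunc K) P) = j0 P := by
  have h1 := RatFunc.liftRingHom_apply_div j0
    (nonZeroDivisors_le_comap_nonZeroDivisors_of_injective _ h) P 1
  simp only [map_one, div_one] at h1
  exact h1

/-! ### ring homomorphisms of `k(S)` -/

theorem norm_kSext {F Ω k M : Type} [Field F] [Field Ω] [Algebra F Ω] [Field k] [Algebra k Ω]
    [Field M] {S : Set (Acl F Ω)} (f g : kS k S →+* M)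
    (h1 : ∀ c : k, f (algebraMap k (kS k S) c) = g (algebraMap k (kS k S) c))
    (h2 : ∀ (s : Acl F Ω) (hs : s ∈ S), f ⟨(s : Ω), mem_kS hs⟩ = g ⟨(s : Ω), mem_kS hs⟩) : f = g := by
  ext ⟨x, hx⟩
  refine IntermediateField.adjoin_induction k (p := fun x hx => f ⟨x, hx⟩ = g ⟨x, hx⟩)
    ?_ ?_ ?_ ?_ ?_ hx
  · rintro _ ⟨s, hs, rfl⟩
    exact h2 s hs
  · intro c
    exact h1 c
  · intro y z hy hz h3 h4
    have e1 := map_add f (⟨y, hy⟩ : kS k S) ⟨z, hz⟩
    have e2 := map_add g (⟨y, hy⟩ : kS k S) ⟨z, hz⟩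
    rw [h3, h4] at e1
    exact e1.trans e2.symm
  · intro y hy h3
    have e1 := map_inv₀ f (⟨y, hy⟩ : kS k S)
    have e2 := map_inv₀ g (⟨y, hy⟩ : kS k S)
    rw [h3] at e1
    exact e1.trans e2.symm
  · intro y z hy hz h3 h4
    have e1 := map_mul f (⟨y, hy⟩ : kS k S) ⟨z, hz⟩
    have e2 := map_mul g (⟨y, hy⟩ : kS k S) ⟨z, hz⟩
    rw [h3, h4] at e1
    exact e1.trans e2.symm

/-- the inclusion `k(S) → k F̄` -/
def normIncl {F Ω : Type} [Field F] [Field Ω] [Algebra F Ω] (k : Type) [Field k] [Algebra k Ω]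
    (S : Set (Acl F Ω)) : kS k S →+* kS k (Set.univ : Set (Acl F Ω)) where
  toFun x := ⟨(x : Ω), kS_univ S x.2⟩
  map_one' := rfl
  map_mul' _ _ := rfl
  map_zero' := rfl
  map_add' _ _ := rfl

/-- `j : RatFunc A → Ω` -/
theorem norm_j (F k Ω : Type) [Field F] [CharZero F] [Field k] [Field Ω] [Algebra F Ω] [Algebra k Ω]
    [Algebra (RatFunc F) k] [FiniteDimensional (RatFunc F) k] [IsAlgClosed Ω] (hFU : FU F k Ω)
    (htr : Transcendental (Acl F Ω) (algebraMap k Ω (uk F k)))
    (p : ℕ) [Fact p.Prime] (ι₀ : Acl F Ω →+* ℂ_[p]) (A : Subfield ℂ_[p])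
    (hA : ∀ x, x ∈ A ↔ ∃ a, ι₀ a = x) (ι : F →+* A)
    (hι : ∀ a, ((ι a : A) : ℂ_[p]) = ι₀ (algebraMap F (Acl F Ω) a)) :
    IsAlgClosed A ∧ ∃ j : RatFunc A →+* Ω, j RatFunc.X = algebraMap k Ω (uk F k) ∧
      (∀ a : Acl F Ω, j (RatFunc.C ⟨ι₀ a, (hA _).2 ⟨a, rfl⟩⟩) = (a : Ω)) ∧
      (∀ c, j c ∈ kS k (Set.univ : Set (Acl F Ω))) ∧
      (∀ c, j c ∈ IntermediateField.adjoin (Acl F Ω) {algebraMap k Ω (uk F k)}) ∧
      ∀ c : RatFunc F, j (mp ι c) = algebraMap k Ω (algebraMap (RatFunc F) k c) := by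
  have hcl : IsAlgClosed (Acl F Ω) := by
    haveI : IsAlgClosure F (Acl F Ω) := inferInstance
    exact IsAlgClosure.isAlgClosed F
  let ι₁ : Acl F Ω →+* A := ι₀.codRestrict A fun a => (hA _).2 ⟨a, rfl⟩
  have hbij : Function.Bijective ι₁ := by
    refine ⟨ι₁.injective, ?_⟩
    rintro ⟨x, hx⟩
    obtain ⟨a, ha⟩ := (hA x).1 hx
    exact ⟨a, Subtype.ext ha⟩
  let ε : Acl F Ω ≃+* A := RingEquiv.ofBijective ι₁ hbij
  have hε : ∀ a : Acl F Ω, ε.symm ⟨ι₀ a, (hA _).2 ⟨a, rfl⟩⟩ = a := by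
    intro a
    apply ε.injective
    rw [RingEquiv.apply_symm_apply]
    rfl
  refine ⟨IsAlgClosed.of_ringEquiv (Acl F Ω) A ε, ?_⟩
  set U : Ω := algebraMap k Ω (uk F k) with hU
  let φ : A →+* Ω := (algebraMap (Acl F Ω) Ω).comp (ε.symm : A →+* Acl F Ω)
  have hφ : ∀ a : Acl F Ω, φ ⟨ι₀ a, (hA _).2 ⟨a, rfl⟩⟩ = (a : Ω) := by
    intro a
    show algebraMap (Acl F Ω) Ω (ε.symm ⟨ι₀ a, _⟩) = _
    rw [hε a]
    rfl
  let j0 : A[X] →+* Ω := eval₂RingHom φ U
  have hj0 : Function.Injective j0 := by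
    rw [injective_iff_map_eq_zero]
    intro P hP
    have h1 : eval₂ φ U P = 0 := hP
    have h2 : aeval U (P.map (ε.symm : A →+* Acl F Ω)) = 0 := by
      rw [aeval_def, eval₂_map]
      exact h1
    have h3 := (transcendental_iff.1 htr) _ h2
    exact (Polynomial.map_eq_zero_iff (ε.symm : A →+* Acl F Ω).injective).1 h3
  let j := normLift j0 hj0
  have hjX : j RatFunc.X = U := by
    rw [← RatFunc.algebraMap_X]
    show normLift j0 hj0 _ = _
    rw [normLift_alg]
    show eval₂ φ U X = U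
    rw [eval₂_X]
  have hjC : ∀ a : A, j (RatFunc.C a) = φ a := by
    intro a
    rw [← RatFunc.algebraMap_C]
    show normLift j0 hj0 _ = _
    rw [normLift_alg]
    show eval₂ φ U (C a) = φ a
    rw [eval₂_C]
  have hgen : ∀ (P : A[X]), j (algebraMap A[X] (RatFunc A) P) = ∑ i ∈ Finset.range (P.natDegree + 1),
      φ (P.coeff i) * U ^ i := by
    intro P
    show normLift j0 hj0 _ = _
    rw [normLift_alg]
    show eval₂ φ U P = _
    rw [eval₂_eq_sum_range]
  have hdiv : ∀ c : RatFunc A, j c = j (algebraMap A[X] (RatFunc A) c.num) /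
      j (algebraMap A[X] (RatFunc A) c.denom) := by
    intro c
    rw [← map_div₀, RatFunc.num_div_denom]
  refine ⟨j, hjX, ?_, ?_, ?_, ?_⟩
  · intro a
    rw [hjC]
    exact hφ a
  · intro c
    rw [hdiv c]
    have key : ∀ P : A[X], j (algebraMap A[X] (RatFunc A) P) ∈ kS k (Set.univ : Set (Acl F Ω)) := by
      intro P
      rw [hgen]
      refine sum_mem fun i _ => mul_mem ?_ (pow_mem ?_ _)
      · exact mem_kS (Set.mem_univ (ε.symm (P.coeff i)))
      · exact (kS k (Set.univ : Set (Acl F Ω))).algebraMap_mem _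
    exact div_mem (key _) (key _)
  · intro c
    rw [hdiv c]
    have key : ∀ P : A[X], j (algebraMap A[X] (RatFunc A) P) ∈
        IntermediateField.adjoin (Acl F Ω) {U} := by
      intro P
      rw [hgen]
      refine sum_mem fun i _ => mul_mem ?_ (pow_mem ?_ _)
      · exact (IntermediateField.adjoin (Acl F Ω) {U}).algebraMap_mem _
      · exact IntermediateField.mem_adjoin_simple_self _ _
    exact div_mem (key _) (key _)
  · intro c
    have : j.comp (mp ι) = (algebraMap k Ω).comp (algebraMap (RatFunc F) k) := by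
      apply norm_ratExt
      · intro a
        show j (mp ι (RatFunc.C a)) = algebraMap k Ω (algebraMap (RatFunc F) k (RatFunc.C a))
        rw [norm_mp_C, hjC, ← hFU.com]
        have h1 : ι a = ⟨ι₀ (algebraMap F (Acl F Ω) a), (hA _).2 ⟨_, rfl⟩⟩ := Subtype.ext (hι a)
        rw [h1, hφ]
        rfl
      · show j (mp ι RatFunc.X) = algebraMap k Ω (algebraMap (RatFunc F) k RatFunc.X)
        rw [norm_mp_X, hjX]
        rfl
    exact RingHom.congr_fun this c

theorem st_NORM (hLDJ : ST_LDJ) (hEVH : Pool.Agent.Helper60.FF.ST_EVH)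
    (hOVF : Pool.Agent.Helper60.FF.ST_OVF) : ST_NORM := by
  intro F k Ω _ _ _ _ _ _ _ _ _ hFU p _ ι₀ A hA ι hι
  classical
  obtain ⟨htr, hdeg⟩ := hLDJ F k Ω hFU
  obtain ⟨hAcl, j, hjX, hjC, hjL, hjK, hjF⟩ := norm_j F k Ω hFU htr p ι₀ A hA ι hι
  obtain ⟨θ, hθ⟩ := Field.exists_primitive_element (RatFunc F) k
  let L := kS k (Set.univ : Set (Acl F Ω))
  let jL : RatFunc A →+* L := j.codRestrict L hjL
  let κ : k →+* L := algebraMap k L
  letI : Algebra (RatFunc A) L := jL.toAlgebra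
  have hcom : ∀ c, κ (algebraMap (RatFunc F) k c) = algebraMap (RatFunc A) L (mp ι c) := by
    intro c
    apply Subtype.ext
    exact (hjF c).symm
  have hC : ∀ a : Acl F Ω, algebraMap (RatFunc A) L (RatFunc.C ⟨ι₀ a, (hA _).2 ⟨a, rfl⟩⟩) =
      ⟨(a : Ω), mem_kS (Set.mem_univ a)⟩ := by
    intro a
    apply Subtype.ext
    exact hjC a
  -- L = R(θ)
  have hκ : ∀ y : k, κ y ∈ IntermediateField.adjoin (RatFunc A) {κ θ} := by
    intro y
    have hy : y ∈ IntermediateField.adjoin (RatFunc F) {θ} := by rw [hθ]; trivial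
    refine IntermediateField.adjoin_induction (RatFunc F)
      (p := fun x _ => κ x ∈ IntermediateField.adjoin (RatFunc A) {κ θ}) ?_ ?_ ?_ ?_ ?_ hy
    · intro z hz
      rw [Set.mem_singleton_iff] at hz
      rw [hz]
      exact IntermediateField.mem_adjoin_simple_self _ _
    · intro c
      rw [hcom c]
      exact (IntermediateField.adjoin (RatFunc A) {κ θ}).algebraMap_mem _
    · intro x y _ _ hx hy
      rw [map_add]
      exact add_mem hx hy
    · intro x _ hx
      rw [map_inv₀]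
      exact inv_mem hx
    · intro x y _ _ hx hy
      rw [map_mul]
      exact mul_mem hx hy
  have hgen' : IntermediateField.adjoin (RatFunc A) {κ θ} = ⊤ := by
    rw [eq_top_iff]
    rintro ⟨x, hx⟩ _
    refine IntermediateField.adjoin_induction k
      (p := fun x hx => (⟨x, hx⟩ : L) ∈ IntermediateField.adjoin (RatFunc A) {κ θ}) ?_ ?_ ?_ ?_ ?_ hx
    · rintro _ ⟨a, _, rfl⟩
      show (⟨(a : Ω), mem_kS (Set.mem_univ a)⟩ : L) ∈ _
      rw [← hC a]
      exact (IntermediateField.adjoin (RatFunc A) {κ θ}).algebraMap_mem _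
    · intro y
      exact hκ y
    · intro x y hx hy h1 h2
      exact add_mem h1 h2
    · intro x hx h1
      exact inv_mem h1
    · intro x y hx hy h1 h2
      exact mul_mem h1 h2
  -- degree
  have hroot : aeval (κ θ) ((minpoly (RatFunc F) θ).map (mp ι)) = 0 := by
    have e1 : κ.comp (algebraMap (RatFunc F) k) = (algebraMap (RatFunc A) L).comp (mp ι) :=
      RingHom.ext hcom
    rw [aeval_def, eval₂_map, ← e1, ← hom_eval₂]
    have : eval₂ (algebraMap (RatFunc F) k) θ (minpoly (RatFunc F) θ) = 0 := minpoly.aeval _ θ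
    rw [this, map_zero]
  have hint : IsIntegral (RatFunc A) (κ θ) :=
    ⟨_, (minpoly.monic (IsIntegral.of_finite (RatFunc F) θ)).map (mp ι), by
      rw [← aeval_def]; exact hroot⟩
  have hdeg' : Module.finrank (RatFunc F) k ≤ (minpoly (RatFunc A) (κ θ)).natDegree := by
    rw [← hdeg θ hθ]
    let jK : RatFunc A →+* IntermediateField.adjoin (Acl F Ω) {algebraMap k Ω (uk F k)} :=
      j.codRestrict _ hjK
    have hm : ((minpoly (RatFunc A) (κ θ)).map jK).Monic := (minpoly.monic hint).map jK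
    have h0 : aeval (algebraMap k Ω θ) ((minpoly (RatFunc A) (κ θ)).map jK) = 0 := by
      rw [aeval_def, eval₂_map]
      have e1 : (algebraMap (IntermediateField.adjoin (Acl F Ω) {algebraMap k Ω (uk F k)}) Ω).comp jK =
          (L.val : L →+* Ω).comp (algebraMap (RatFunc A) L) := by
        ext c
        rfl
      have e2 : algebraMap k Ω θ = (L.val : L →+* Ω) (κ θ) := rfl
      rw [e1, e2, ← hom_eval₂]
      have : eval₂ (algebraMap (RatFunc A) L) (κ θ) (minpoly (RatFunc A) (κ θ)) = 0 :=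
        minpoly.aeval _ (κ θ)
      rw [this, map_zero]
    have h1 := natDegree_le_of_dvd (minpoly.dvd _ _ h0) hm.ne_zero
    rwa [natDegree_map] at h1
  have hN : NormH (mp ι) κ θ := ⟨hcom, hθ, hgen', hdeg'⟩
  haveI : FiniteDimensional (RatFunc A) L := normH_fin hN
  refine ⟨j, fun x => Algebra.norm (RatFunc A) (x : L), hjX, hjC, hjL, hjF, fun x y => map_mul _ x y,
    fun x hx h0 => hx (Algebra.norm_eq_zero_iff.1 h0), fun x => normH_norm hN x, ?_, ?_⟩
  · -- `Ov`
    intro E hE S hS x hx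
    obtain ⟨Fo, hFo⟩ := hOVF p A E
    have hC' : ∀ a : A, (a : ℂ_[p]) ∈ E → RatFunc.C a ∈ Fo := by
      intro a ha
      rw [hFo]
      refine ⟨C a, 1, one_ne_zero, ?_, ?_, ?_⟩
      · intro i
        rw [coeff_C]
        split_ifs
        · exact ha
        · exact zero_mem E
      · intro i
        rw [coeff_one]
        split_ifs
        · exact one_mem E
        · exact zero_mem E
      · rw [map_one, mul_one, RatFunc.algebraMap_C]
    have hFo' : ∀ c, mp ι c ∈ Fo := by
      intro c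
      rw [hFo]
      refine ⟨c.num.map ι, c.denom.map ι, ?_, ?_, ?_, ?_⟩
      · exact (Polynomial.map_ne_zero_iff ι.injective).2 c.denom_ne_zero
      · intro i
        rw [coeff_map, hι]
        exact hE _
      · intro i
        rw [coeff_map, hι]
        exact hE _
      · rw [← norm_mp_alg, ← norm_mp_alg, ← map_mul]
        congr 1
        have h1 : algebraMap F[X] (RatFunc F) c.denom ≠ 0 := RatFunc.algebraMap_ne_zero c.denom_ne_zero
        have h2 := RatFunc.num_div_denom c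
        rw [div_eq_iff h1] at h2
        exact h2.symm
    obtain ⟨V, hV1, hV2, hV3⟩ := normH_sub hN Fo hFo'
    have hx' : (⟨x, kS_univ S hx⟩ : L) ∈ V := by
      refine IntermediateField.adjoin_induction k
        (p := fun x hx => (⟨x, kS_univ S hx⟩ : L) ∈ V) ?_ ?_ ?_ ?_ ?_ hx
      · rintro _ ⟨s, hs, rfl⟩
        have h1 := hV2 (RatFunc.C ⟨ι₀ s, (hA _).2 ⟨s, rfl⟩⟩) (hC' _ (hS s hs))
        rw [hC s] at h1
        exact h1
      · intro y
        exact hV1 y
      · intro x y hx hy h1 h2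
        exact add_mem h1 h2
      · intro x hx h1
        exact inv_mem h1
      · intro x y hx hy h1 h2
        exact mul_mem h1 h2
    exact (hFo _).1 (hV3 _ hx')
  · -- embeddings
    intro τ hτ S
    obtain ⟨e, he, heX, heC, -, -⟩ := hEVH p A hAcl τ hτ
    obtain ⟨T, hT1, hT2, hT3, hT4, hT5⟩ := normH_emb hN (K' := ℂ_[p]) e
    let f : (L →+* ℂ_[p]) → (kS k S →+* ℂ_[p]) := fun σ => σ.comp (normIncl k S)
    have hfk : ∀ σ : L →+* ℂ_[p], (f σ).comp (algebraMap k (kS k S)) = σ.comp κ := fun σ => rfl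
    -- `T0` and `e`
    have hT0 : ∀ σ : k →+* ℂ_[p], σ ∈ T0 k ι₀ τ ↔ σ.comp (algebraMap (RatFunc F) k) = e.comp (mp ι) := by
      intro σ
      constructor
      · rintro ⟨h1, h2⟩
        apply norm_ratExt
        · intro a
          show σ (algebraMap (RatFunc F) k (RatFunc.C a)) = e (mp ι (RatFunc.C a))
          rw [h1, norm_mp_C, heC, hι]
        · show σ (algebraMap (RatFunc F) k RatFunc.X) = e (mp ι RatFunc.X)
          rw [norm_mp_X, heX]
          exact h2
      · intro h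
        refine ⟨fun a => ?_, ?_⟩
        · have h1 := RingHom.congr_fun h (RatFunc.C a)
          have h2 : σ (algebraMap (RatFunc F) k (RatFunc.C a)) = e (mp ι (RatFunc.C a)) := h1
          rw [h2, norm_mp_C, heC, hι]
        · have h1 := RingHom.congr_fun h RatFunc.X
          have h2 : σ (algebraMap (RatFunc F) k RatFunc.X) = e (mp ι RatFunc.X) := h1
          show σ (algebraMap (RatFunc F) k RatFunc.X) = τ
          rw [h2, norm_mp_X, heX]
    have hrest : ∀ σ' ∈ TT k ι₀ S τ, σ'.comp (algebraMap k (kS k S)) ∈ T0 k ι₀ τ := by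
      rintro σ' ⟨h1, -, h3⟩
      exact ⟨h1, h3⟩
    have hfT : ∀ σ ∈ T, f σ ∈ TT k ι₀ S τ := by
      intro σ hσ
      have h1 := (hT1 σ).1 hσ
      have h0 : σ.comp κ ∈ T0 k ι₀ τ := by
        rw [hT0, RingHom.comp_assoc, normH_comp hN, ← RingHom.comp_assoc, h1]
      refine ⟨h0.1, ?_, h0.2⟩
      intro s hs
      show σ ⟨(s : Ω), _⟩ = ι₀ s
      have h2 : σ (algebraMap (RatFunc A) L (RatFunc.C ⟨ι₀ s, (hA _).2 ⟨s, rfl⟩⟩)) =
          e (RatFunc.C ⟨ι₀ s, (hA _).2 ⟨s, rfl⟩⟩) := RingHom.congr_fun h1 _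
      rw [hC s, heC] at h2
      exact h2
    have hext : ∀ σ₁ ∈ TT k ι₀ S τ, ∀ σ₂ ∈ TT k ι₀ S τ, (∀ c : k, σ₁ (algebraMap k (kS k S) c) =
        σ₂ (algebraMap k (kS k S) c)) → σ₁ = σ₂ := by
      intro σ₁ h₁ σ₂ h₂ h
      apply norm_kSext σ₁ σ₂ h
      intro s hs
      rw [h₁.2.1 s hs, h₂.2.1 s hs]
    have hTT : TT k ι₀ S τ = f '' (T : Set (L →+* ℂ_[p])) := by
      ext σ
      constructor
      · intro hσ
        obtain ⟨σ', hσ', hσ2⟩ := hT4 _ ((hT0 _).1 (hrest σ hσ))
        refine ⟨σ', hσ', ?_⟩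
        apply hext _ (hfT σ' hσ') _ hσ
        intro c
        exact RingHom.congr_fun hσ2 c
      · rintro ⟨σ', hσ', rfl⟩
        exact hfT σ' hσ'
    have hinj : ∀ σ₁ ∈ T, ∀ σ₂ ∈ T, f σ₁ = f σ₂ → σ₁ = σ₂ := by
      intro σ₁ h₁ σ₂ h₂ h
      apply hT5 σ₁ h₁ σ₂ h₂
      rw [← hfk, ← hfk, h]
    have hfin : (TT k ι₀ S τ).Finite := by
      rw [hTT]
      exact T.finite_toSet.image f
    have himg : hfin.toFinset = T.image f := by
      ext σ
      rw [Set.Finite.mem_toFinset, Finset.mem_image, hTT]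
      rfl
    refine ⟨hfin, ?_, ?_, ?_, hrest⟩
    · rw [himg, Finset.card_image_of_injOn hinj, hT2]
    · intro x hx
      rw [himg, Finset.prod_image hinj, ← he]
      exact hT3 _
    · intro σ hσ
      obtain ⟨σ', hσ', hσ2⟩ := hT4 σ ((hT0 σ).1 hσ)
      refine ⟨f σ', ⟨hfT σ' hσ', fun c => RingHom.congr_fun hσ2 c⟩, ?_⟩
      rintro σ'' ⟨h1, h2⟩
      apply hext _ h1 _ (hfT σ' hσ')
      intro c
      rw [h2 c]
      exact (RingHom.congr_fun hσ2 c).symm

end Pool.Agent.Helper22.FF
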